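import Pool.Agent.Y553.PL.Stm

set_option autoImplicit false

/-!
# PL-REC (helper542 for helper553, job 11126): the meaning of the recursive reachability predicate
-/

namespace Pool.Agent.Y542.PL

open Pool.Agent.Y553.PL Pool.Agent.Results.MP_abe753_lc.PlusNotLocal

variable {V : Type}

lemma pow_refl (G : CG V) (u : V) (hu : u ∈ G.colour 0) (n : ℕ) : Pow G n u u := by
  induction n with
  | zero => rfl
  | succ n ih => exact ⟨u, hu, ih, Or.inl rfl⟩

lemma pow_split (G : CG V) (n n' : ℕ) (u v : V) (hv : v ∈ G.colour 0) (h : Pow G (n + n') u v) :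
    ∃ w, w ∈ G.colour 0 ∧ Pow G n u w ∧ Pow G n' w v := by
  induction n' generalizing v with
  | zero => exact ⟨v, hv, h, rfl⟩
  | succ n' ih =>
    obtain ⟨w', hw', h1, h2⟩ := h
    obtain ⟨w, hw, h3, h4⟩ := ih w' hw' h1
    exact ⟨w, hw, h3, w', hw', h4, h2⟩

lemma pow_join (G : CG V) (n n' : ℕ) (u w v : V) (h1 : Pow G n u w) (h2 : Pow G n' w v) :
    Pow G (n + n') u v := by
  induction n' generalizing v with
  | zero =>
    have h3 : w = v := h2
    rw [← h3]
    exact h1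
  | succ n' ih =>
    obtain ⟨w', hw', h3, h4⟩ := h2
    exact ⟨w', hw', ih w' h3, h4⟩

lemma pow_one_iff (G : CG V) (u v : V) (hu : u ∈ G.colour 0) : Pow G 1 u v ↔ (u = v ∨ Step G u v) := by
  constructor
  · rintro ⟨w, _, h1, h2⟩
    have h3 : u = w := h1
    rw [h3]
    exact h2
  · intro h
    exact ⟨u, hu, rfl, h⟩

lemma pow_seq (G : CG V) (t n : ℕ) (u v : V) (hu : u ∈ G.colour 0) (hv : v ∈ G.colour 0) (h : Pow G (n * t) u v) :
    ∃ s : ℕ → V, s 0 = u ∧ s n = v ∧ (∀ i, i ≤ n → s i ∈ G.colour 0) ∧ ∀ i, i < n → Pow G t (s i) (s (i + 1)) := by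
  induction n generalizing v with
  | zero =>
    rw [zero_mul] at h
    have h1 : u = v := h
    exact ⟨fun _ => u, rfl, h1, fun i _ => hu, fun i hi => by omega⟩
  | succ n ih =>
    rw [Nat.succ_mul] at h
    obtain ⟨w, hw, h1, h2⟩ := pow_split G _ _ u v hv h
    obtain ⟨s, s1, s2, s3, s4⟩ := ih w hw h1
    refine ⟨fun i => if i ≤ n then s i else v, ?_, ?_, ?_, ?_⟩
    · simp only [Nat.zero_le, if_true]
      exact s1
    · simp only [if_neg (by omega : ¬ n + 1 ≤ n)]
    · intro i hi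
      dsimp only
      split_ifs with h3
      · exact s3 i h3
      · exact hv
    · intro i hi
      dsimp only
      by_cases h3 : i < n
      · rw [if_pos (by omega), if_pos (by omega)]
        exact s4 i h3
      · have h4 : i = n := by omega
        rw [h4, if_pos le_rfl, if_neg (by omega), s2]
        exact h2

lemma pow_of_seq (G : CG V) (t n : ℕ) (s : ℕ → V) (h : ∀ i, i < n → Pow G t (s i) (s (i + 1))) :
    Pow G (n * t) (s 0) (s n) := by
  induction n with
  | zero =>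
    rw [zero_mul]
    exact rfl
  | succ n ih =>
    rw [Nat.succ_mul]
    exact pow_join G _ _ _ (s n) _ (ih fun i hi => h i (by omega)) (h n (by omega))

section
variable {G : CG V} {f : V → ℕ} {J : ℕ} {x y z0 : V} {Q : Fin J → V} {k l : ℕ}

lemma at_unique (P : Pres G k l) (hG : Good G f x y z0 Q) (X : Fin J → V) (hX : ∀ i, X i ∈ G.colour 4) (a u u' : V)
    (ha : a ∈ G.colour 1) (hu : u ∈ G.colour 0) (hu' : u' ∈ G.colour 0)
    (h : At G f x y z0 Q X a u) (h' : At G f x y z0 Q X a u') : u = u' := by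
  obtain ⟨c, c1, c2, c3⟩ := h
  obtain ⟨c', c1', c2', c3'⟩ := h'
  have hcc : c = c' := by
    funext i
    obtain ⟨i0, _, hi0⟩ := P.α_bij.surjOn ha
    obtain ⟨g, _, hg⟩ := P.w_bij.surjOn (hX i)
    obtain ⟨b, _, hb⟩ := P.β_bij.surjOn (c1 i)
    obtain ⟨b', _, hb'⟩ := P.β_bij.surjOn (c1' i)
    have h1 := c2 i
    have h2 := c2' i
    rw [← hi0, ← hg, ← hb, P.arr_iff] at h1
    rw [← hi0, ← hg, ← hb', P.arr_iff] at h2
    rw [← hb, ← hb', ← h1, ← h2]
  rw [← hcc] at c3'
  exact hG.2 c c1 u hu u' hu' c3 c3'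

lemma at_exists (P : Pres G k l) (hG : Good G f x y z0 Q) (s : ℕ → V) (hs : ∀ i, i < k → s i ∈ G.colour 0) :
    ∃ X : Fin J → V, (∀ i, X i ∈ G.colour 4) ∧ ∀ i : Fin k, At G f x y z0 Q X (P.α i) (s i) := by
  choose c c1 c2 using fun i : Fin k => hG.1 (s i) (hs i i.isLt)
  have hb : ∀ (i : Fin k) (j : Fin J), ∃ b : Fin l, P.β b = c i j := by
    intro i j
    obtain ⟨b, _, hb⟩ := P.β_bij.surjOn (c1 i j)
    exact ⟨b, hb⟩
  choose b hb' using hb
  refine ⟨fun j => P.w fun i => b i j, fun j => P.w_bij.mapsTo (Set.mem_univ _), fun i => ?_⟩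
  refine ⟨c i, c1 i, fun j => ?_, c2 i⟩
  rw [← hb', P.arr_iff]

lemma first_iff (P : Pres G k l) (hk : 0 < k) (i : Fin k) : First G (P.α i) ↔ i.val = 0 := by
  constructor
  · rintro ⟨_, h⟩
    by_contra hne
    refine h (P.α ⟨0, hk⟩) (P.α_bij.mapsTo (Set.mem_univ _)) ?_
    rw [P.lt_iff, Fin.lt_def]
    exact Nat.pos_of_ne_zero hne
  · intro h
    refine ⟨P.α_bij.mapsTo (Set.mem_univ _), fun a' ha' hlt => ?_⟩
    obtain ⟨i', _, hi'⟩ := P.α_bij.surjOn ha'
    rw [← hi', P.lt_iff, Fin.lt_def] at hlt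
    omega

lemma last_iff (P : Pres G k l) (hk : 0 < k) (i : Fin k) : Last G (P.α i) ↔ i.val = k - 1 := by
  constructor
  · rintro ⟨_, h⟩
    by_contra hne
    refine h (P.α ⟨k - 1, by omega⟩) (P.α_bij.mapsTo (Set.mem_univ _)) ?_
    rw [P.lt_iff, Fin.lt_def]
    have := i.isLt
    show i.val < k - 1
    omega
  · intro h
    refine ⟨P.α_bij.mapsTo (Set.mem_univ _), fun a' ha' hlt => ?_⟩
    obtain ⟨i', _, hi'⟩ := P.α_bij.surjOn ha'
    rw [← hi', P.lt_iff, Fin.lt_def] at hlt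
    have := i'.isLt
    omega

lemma cons_iff (P : Pres G k l) (i i' : Fin k) : Cons G (P.α i) (P.α i') ↔ i'.val = i.val + 1 := by
  constructor
  · rintro ⟨_, _, h1, h2⟩
    rw [P.lt_iff, Fin.lt_def] at h1
    by_contra hne
    have hlt : i.val + 1 < i'.val := by omega
    refine h2 (P.α ⟨i.val + 1, by omega⟩) (P.α_bij.mapsTo (Set.mem_univ _)) ⟨?_, ?_⟩
    · rw [P.lt_iff, Fin.lt_def]
      exact Nat.lt_succ_self _
    · rw [P.lt_iff, Fin.lt_def]
      exact hlt
  · intro h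
    refine ⟨P.α_bij.mapsTo (Set.mem_univ _), P.α_bij.mapsTo (Set.mem_univ _), ?_, ?_⟩
    · rw [P.lt_iff, Fin.lt_def]
      omega
    · rintro b hb ⟨h1, h2⟩
      obtain ⟨i0, _, hi0⟩ := P.α_bij.surjOn hb
      rw [← hi0, P.lt_iff, Fin.lt_def] at h1 h2
      omega

end

theorem t_REC : St_REC := by
  intro V G f J x y z0 Q k l P hk hG j
  induction j with
  | zero =>
    intro u v hu hv
    rw [pow_zero, pow_one_iff G u v hu]
    exact Iff.rfl
  | succ j ih =>
    intro u v hu hv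
    constructor
    · rintro ⟨X, hX, ⟨a0, ha0, hu0⟩, ⟨a1, ha1, hv1⟩, hall, hcons⟩
      choose s' s1 s2 using fun i : Fin k => hall (P.α i) (P.α_bij.mapsTo (Set.mem_univ _))
      obtain ⟨s, hs⟩ : ∃ s : ℕ → V, s = fun n => if h : n < k then s' ⟨n, h⟩ else u := ⟨_, rfl⟩
      have hsv : ∀ n (h : n < k), s n = s' ⟨n, h⟩ := fun n h => by rw [hs]; exact dif_pos h
      have h0 : s 0 = u := by
        rw [hsv 0 hk]
        obtain ⟨i, _, hi⟩ := P.α_bij.surjOn ha0.1
        have h1 : i = ⟨0, hk⟩ := by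
          rw [← hi, first_iff P hk] at ha0
          exact Fin.ext ha0
        rw [← hi, h1] at hu0
        exact at_unique P hG X hX _ _ _ (P.α_bij.mapsTo (Set.mem_univ _)) (s1 _) hu (s2 _) hu0
      have h1 : s (k - 1) = v := by
        rw [hsv (k - 1) (by omega)]
        obtain ⟨i, _, hi⟩ := P.α_bij.surjOn ha1.1
        have h1 : i = ⟨k - 1, by omega⟩ := by
          rw [← hi, last_iff P hk] at ha1
          exact Fin.ext ha1
        rw [← hi, h1] at hv1
        exact at_unique P hG X hX _ _ _ (P.α_bij.mapsTo (Set.mem_univ _)) (s1 _) hv (s2 _) hv1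
      have h2 : ∀ i, i < k - 1 → Pow G ((k - 1) ^ j) (s i) (s (i + 1)) := by
        intro i hi
        rw [hsv i (by omega), hsv (i + 1) (by omega), ← ih _ _ (s1 _) (s1 _)]
        refine hcons _ _ ?_ _ (s1 _) _ (s1 _) (s2 _) (s2 _)
        rw [cons_iff]
      have h3 := pow_of_seq G ((k - 1) ^ j) (k - 1) s h2
      rw [h0, h1] at h3
      rw [pow_succ, mul_comm]
      exact h3
    · intro h
      rw [pow_succ, mul_comm] at h
      obtain ⟨s, s1, s2, s3, s4⟩ := pow_seq G _ _ u v hu hv h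
      obtain ⟨X, hX, hAt⟩ := at_exists P hG s (fun i hi => s3 i (by omega))
      refine ⟨X, hX, ⟨P.α ⟨0, hk⟩, (first_iff P hk _).2 rfl, ?_⟩, ⟨P.α ⟨k - 1, by omega⟩, (last_iff P hk _).2 rfl, ?_⟩,
        ?_, ?_⟩
      · have h1 := hAt ⟨0, hk⟩
        simp only at h1
        rw [s1] at h1
        exact h1
      · have h1 := hAt ⟨k - 1, by omega⟩
        simp only at h1
        rw [s2] at h1
        exact h1
      · intro a ha
        obtain ⟨i, _, hi⟩ := P.α_bij.surjOn ha
        rw [← hi]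
        exact ⟨s i, s3 i (by have := i.isLt; omega), hAt i⟩
      · intro a a' hc u' hu' v' hv' h1 h2
        obtain ⟨i, _, hi⟩ := P.α_bij.surjOn hc.1
        obtain ⟨i', _, hi'⟩ := P.α_bij.surjOn hc.2.1
        rw [← hi, ← hi', cons_iff] at hc
        rw [← hi] at h1
        rw [← hi'] at h2
        have hi1 := i.isLt
        have hi2 := i'.isLt
        have e1 := at_unique P hG X hX _ _ _ (P.α_bij.mapsTo (Set.mem_univ i)) hu' (s3 i (by omega)) h1 (hAt i)
        have e2 := at_unique P hG X hX _ _ _ (P.α_bij.mapsTo (Set.mem_univ i')) hv' (s3 i' (by omega)) h2 (hAt i')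
        rw [e1, e2, hc, ih _ _ (s3 _ (by omega)) (s3 _ (by omega))]
        exact s4 i (by omega)

end Pool.Agent.Y542.PL
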